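import Mathlib

/-!
# Stationary generalized Bratteli diagrams: definitions
-/

set_option autoImplicit false

open MeasureTheory

namespace Pool.Agent.R201.Bratteli

variable {V : Type}

/-- `F` is the incidence matrix of a stationary generalized Bratteli diagram all of whose levels are
identified with the countably infinite set `V`: `F v w` is the number of edges from the vertex `w` of
level `n` to the vertex `v` of level `n + 1`; every vertex meets finitely many edges, emits an edge
and receives an edge from the previous level. -/
structure IsIncidence (F : V → V → ℕ) : Prop where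
  countable : Countable V
  infinite : Infinite V
  finite_emit : ∀ w, {v | F v w ≠ 0}.Finite
  finite_receive : ∀ v, {w | F v w ≠ 0}.Finite
  emits : ∀ w, ∃ v, F v w ≠ 0
  receives : ∀ v, ∃ w, F v w ≠ 0

/-- the edges between two consecutive levels: `(w, v, k)` with `k < F v w` is the `k`-th edge from
`w` to `v` -/
def Edge (F : V → V → ℕ) : Type := {e : V × V × ℕ // e.2.2 < F e.2.1 e.1}

/-- source of an edge -/
def src {F : V → V → ℕ} (e : Edge F) : V := e.1.1

/-- range of an edge -/
def rng {F : V → V → ℕ} (e : Edge F) : V := e.1.2.1

instance (F : V → V → ℕ) : MeasurableSpace (Edge F) := ⊤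

/-- the path space: infinite paths `x 0, x 1, …`, where `x n` is an edge from level `n` to level
`n + 1`; it carries the `σ`-algebra generated by the coordinates (that is, by the cylinder sets) -/
def PathSpace (F : V → V → ℕ) : Type := {x : ℕ → Edge F // ∀ i, rng (x i) = src (x (i + 1))}

instance (F : V → V → ℕ) : MeasurableSpace (PathSpace F) := Subtype.instMeasurableSpace

/-- `e 0, …, e (n - 1)` is a finite path that starts in level `0` -/
def IsFinPath {F : V → V → ℕ} (n : ℕ) (e : ℕ → Edge F) : Prop :=
  ∀ i, i + 1 < n → rng (e i) = src (e (i + 1))

/-- the cylinder set of the finite path `e 0, …, e (n - 1)` -/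
def cyl {F : V → V → ℕ} (n : ℕ) (e : ℕ → Edge F) : Set (PathSpace F) := {x | ∀ i < n, x.1 i = e i}

/-- `μ` is a tail-invariant measure: it is not zero and two cylinder sets of finite paths (of the
same length `n ≥ 1`, starting in level `0`) that end at the same vertex have the same measure -/
def IsTailInvariant {F : V → V → ℕ} (μ : Measure (PathSpace F)) : Prop :=
  μ ≠ 0 ∧ ∀ (n : ℕ) (e e' : ℕ → Edge F), 1 ≤ n → IsFinPath n e → IsFinPath n e' →
    rng (e (n - 1)) = rng (e' (n - 1)) → μ (cyl n e) = μ (cyl n e')

/-- the entries of the `n`-th power of `F` (the sums are finite) -/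
noncomputable def pow (F : V → V → ℕ) : ℕ → V → V → ℕ
  | 0, v, w => by classical exact if v = w then 1 else 0
  | n + 1, v, w => ∑ᶠ t, F v t * pow F n t w

end Pool.Agent.R201.Bratteli
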