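import Mathlib

open Filter Topology

namespace Pool.Agent.R201.Golden

/-- The golden ratio. -/
noncomputable def g : ℝ := Real.goldenRatio

theorem g_sq : g ^ 2 = g + 1 := Real.goldenRatio_sq

theorem g_lo : (1.618 : ℝ) < g := by
  have h := g_sq
  have h0 : 0 < g := Real.goldenRatio_pos
  by_contra hc
  push Not at hc
  nlinarith

theorem g_hi : g < (1.6181 : ℝ) := by
  have h := g_sq
  by_contra hc
  push Not at hc
  nlinarith

theorem g_pos : 0 < g := by linarith [g_lo]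

/-- The value `a + b φ` of a pair. -/
noncomputable def val (y : ℤ × ℤ) : ℝ := y.1 + y.2 * g

/-- The conjugate `a + b ψ` of a pair. -/
noncomputable def cnj (y : ℤ × ℤ) : ℝ := y.1 + y.2 * (1 - g)

/-- The bijection `y ↦ φ y + c`. -/
def sh (c : ℤ) : (ℤ × ℤ) ≃ (ℤ × ℤ) where
  toFun y := (y.2 + c, y.1 + y.2)
  invFun y := (y.2 - (y.1 - c), y.1 - c)
  left_inv y := by ext <;> simp
  right_inv y := by ext <;> simp

theorem val_sh (c : ℤ) (y : ℤ × ℤ) : val (sh c y) = g * val y + c := by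
  have h := g_sq
  simp only [val, sh, Equiv.coe_fn_mk]
  push_cast
  linear_combination (-(y.2 : ℝ)) * h

theorem cnj_sh (c : ℤ) (y : ℤ × ℤ) : cnj (sh c y) = (1 - g) * cnj y + c := by
  have h := g_sq
  simp only [cnj, sh, Equiv.coe_fn_mk]
  push_cast
  linear_combination (-(y.2 : ℝ)) * h

theorem val_neg (y : ℤ × ℤ) : val (-y) = - val y := by
  simp [val]; ring

theorem cnj_neg (y : ℤ × ℤ) : cnj (-y) = - cnj y := by
  simp [cnj]; ring

theorem fin_box (R S : ℝ) : {y : ℤ × ℤ | |val y| ≤ R ∧ |cnj y| ≤ S}.Finite := by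
  obtain ⟨B, hB⟩ := exists_nat_ge (R + S)
  obtain ⟨A, hA⟩ := exists_nat_ge (R + B * 2)
  refine ((Set.finite_Icc (-(A : ℤ)) A).prod (Set.finite_Icc (-(B : ℤ)) B)).subset ?_
  rintro y ⟨h1, h2⟩
  have hg := g_lo
  have hg2 := g_hi
  rw [abs_le] at h1 h2
  simp only [val, cnj] at h1 h2
  have hb1 : (y.2 : ℝ) ≤ B := by
    by_contra hc
    push Not at hc
    have hB0 : (0 : ℝ) ≤ B := Nat.cast_nonneg _
    nlinarith
  have hb2 : -(B : ℝ) ≤ y.2 := by
    by_contra hc
    push Not at hc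
    have hB0 : (0 : ℝ) ≤ B := Nat.cast_nonneg _
    nlinarith
  have ha1 : (y.1 : ℝ) ≤ A := by nlinarith
  have ha2 : -(A : ℝ) ≤ y.1 := by nlinarith
  simp only [Set.mem_prod, Set.mem_Icc]
  refine ⟨⟨?_, ?_⟩, ?_, ?_⟩
  · exact_mod_cast ha2
  · exact_mod_cast ha1
  · exact_mod_cast hb2
  · exact_mod_cast hb1

theorem val_inj : Function.Injective val := by
  intro x y h
  simp only [val] at h
  have h2 : ((x.2 - y.2 : ℤ) : ℝ) * g = ((y.1 - x.1 : ℤ) : ℝ) := by
    push_cast; linarith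
  have hb : x.2 - y.2 = 0 := by
    by_contra hc
    have hirr : Irrational g := Real.goldenRatio_irrational
    apply hirr
    refine ⟨((y.1 - x.1 : ℤ) : ℚ) / ((x.2 - y.2 : ℤ) : ℚ), ?_⟩
    have hc' : ((x.2 - y.2 : ℤ) : ℝ) ≠ 0 := by exact_mod_cast hc
    push_cast at h2 hc' ⊢
    field_simp
    linarith
  rw [hb] at h2
  have ha : y.1 - x.1 = 0 := by
    have : ((y.1 - x.1 : ℤ) : ℝ) = 0 := by rw [← h2]; simp
    exact_mod_cast this
  ext
  · linarith
  · linarith

/-- Data of the limiting weight, indexed by pairs. -/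
structure Wt (lam : ℝ) (mu : ℤ × ℤ → ℝ) : Prop where
  lo : 2 ≤ lam
  hi : lam ≤ 2.5
  nonneg : ∀ y, 0 ≤ mu y
  supp : ∀ y, mu y ≠ 0 → |cnj y| ≤ g ^ 2
  sym : ∀ y, mu (-y) = mu y
  recu : ∀ y, lam * mu y = 2 * mu ((sh 0).symm y) + mu ((sh 1).symm y) + mu ((sh (-1)).symm y)
  zero : 0 < mu 0

/-- Bounded support. -/
def BS (G : ℤ × ℤ → ℝ) : Prop := ∃ R : ℝ, ∀ y, G y ≠ 0 → |val y| ≤ R

/-- The pairing. -/
noncomputable def A (mu G : ℤ × ℤ → ℝ) : ℝ := ∑' y, mu y * G y

/-- The transfer operator. -/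
def L (G : ℤ × ℤ → ℝ) : ℤ × ℤ → ℝ := fun y => 2 * G (sh 0 y) + G (sh 1 y) + G (sh (-1) y)

variable {lam : ℝ} {mu : ℤ × ℤ → ℝ}

theorem Wt.summable (h : Wt lam mu) {G : ℤ × ℤ → ℝ} (hG : BS G) :
    Summable (fun y => mu y * G y) := by
  obtain ⟨R, hR⟩ := hG
  apply summable_of_hasFiniteSupport
  refine (fin_box R (g ^ 2)).subset ?_
  intro y hy
  simp only [Function.mem_support] at hy
  exact ⟨hR y (right_ne_zero_of_mul hy), h.supp y (left_ne_zero_of_mul hy)⟩

theorem Wt.A_mono (h : Wt lam mu) {G H : ℤ × ℤ → ℝ} (hG : BS G) (hH : BS H)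
    (hle : ∀ y, |cnj y| ≤ g ^ 2 → G y ≤ H y) : A mu G ≤ A mu H := by
  apply (h.summable hG).tsum_le_tsum _ (h.summable hH)
  intro y
  by_cases hy : mu y = 0
  · simp [hy]
  · exact mul_le_mul_of_nonneg_left (hle y (h.supp y hy)) (h.nonneg y)

theorem Wt.A_add (h : Wt lam mu) {G H : ℤ × ℤ → ℝ} (hG : BS G) (hH : BS H) :
    A mu (fun y => G y + H y) = A mu G + A mu H := by
  unfold A
  rw [← (h.summable hG).tsum_add (h.summable hH)]
  congr 1
  ext y
  ring

theorem Wt.A_sub (h : Wt lam mu) {G H : ℤ × ℤ → ℝ} (hG : BS G) (hH : BS H) :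
    A mu (fun y => G y - H y) = A mu G - A mu H := by
  unfold A
  rw [← (h.summable hG).tsum_sub (h.summable hH)]
  congr 1
  ext y
  ring

theorem A_smul (c : ℝ) (G : ℤ × ℤ → ℝ) :
    A mu (fun y => c * G y) = c * A mu G := by
  unfold A
  rw [← tsum_mul_left]
  congr 1
  ext y
  ring

theorem BS.add {G H : ℤ × ℤ → ℝ} (hG : BS G) (hH : BS H) : BS (fun y => G y + H y) := by
  obtain ⟨R, hR⟩ := hG
  obtain ⟨S, hS⟩ := hH
  refine ⟨max R S, fun y hy => ?_⟩
  by_cases h1 : G y = 0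
  · have : H y ≠ 0 := by
      intro h2; apply hy; simp [h1, h2]
    exact (hS y this).trans (le_max_right _ _)
  · exact (hR y h1).trans (le_max_left _ _)

theorem BS.smul {G : ℤ × ℤ → ℝ} (hG : BS G) (c : ℝ) : BS (fun y => c * G y) := by
  obtain ⟨R, hR⟩ := hG
  exact ⟨R, fun y hy => hR y (right_ne_zero_of_mul hy)⟩

theorem BS.mul_right {G : ℤ × ℤ → ℝ} (hG : BS G) (F : ℤ × ℤ → ℝ) : BS (fun y => G y * F y) := by
  obtain ⟨R, hR⟩ := hG
  exact ⟨R, fun y hy => hR y (left_ne_zero_of_mul hy)⟩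

theorem BS.sub {G H : ℤ × ℤ → ℝ} (hG : BS G) (hH : BS H) : BS (fun y => G y - H y) := by
  have := hG.add (hH.smul (-1))
  refine (by simpa [sub_eq_add_neg] using this)

theorem BS.sh {G : ℤ × ℤ → ℝ} (hG : BS G) (c : ℤ) : BS (fun y => G (sh c y)) := by
  obtain ⟨R, hR⟩ := hG
  refine ⟨R + |(c : ℝ)|, fun y hy => ?_⟩
  have h1 := hR _ hy
  rw [val_sh] at h1
  have hg := g_lo
  have h2 : |g * val y| ≤ R + |(c : ℝ)| := by
    calc |g * val y| = |(g * val y + c) - c| := by ring_nf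
      _ ≤ |g * val y + c| + |(c : ℝ)| := abs_sub _ _
      _ ≤ R + |(c : ℝ)| := by linarith
  rw [abs_mul, abs_of_pos g_pos] at h2
  nlinarith [abs_nonneg (val y)]

theorem BS.L {G : ℤ × ℤ → ℝ} (hG : BS G) : BS (L G) :=
  (((hG.sh 0).smul 2).add (hG.sh 1)).add (hG.sh (-1))

theorem BS.Lm {G : ℤ × ℤ → ℝ} (hG : BS G) (m : ℕ) : BS (Golden.L^[m] G) := by
  induction m with
  | zero => simpa using hG
  | succ m ih => rw [Function.iterate_succ_apply']; exact ih.L

theorem Wt.A_L (h : Wt lam mu) {G : ℤ × ℤ → ℝ} (hG : BS G) : lam * A mu G = A mu (L G) := by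
  have key : ∀ c : ℤ, ∑' y, mu ((sh c).symm y) * G y = ∑' y, mu y * G (sh c y) := by
    intro c
    rw [← (sh c).tsum_eq]
    simp
  have hs : ∀ c : ℤ, Summable (fun y => mu ((sh c).symm y) * G y) := by
    intro c
    rw [← (sh c).summable_iff]
    have : ((fun y => mu ((sh c).symm y) * G y) ∘ (sh c)) = fun y => mu y * G (sh c y) := by
      ext y; simp
    rw [this]
    exact h.summable (hG.sh c)
  have e1 : lam * A mu G = ∑' y, (2 * (mu ((sh 0).symm y) * G y) + mu ((sh 1).symm y) * G y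
      + mu ((sh (-1)).symm y) * G y) := by
    unfold A
    rw [← tsum_mul_left]
    congr 1
    ext y
    have := h.recu y
    linear_combination (G y) * this
  rw [e1, (((hs 0).mul_left 2).add (hs 1)).tsum_add (hs (-1)), ((hs 0).mul_left 2).tsum_add (hs 1),
    tsum_mul_left, key, key, key]
  have hA := h.A_add (((hG.sh 0).smul 2).add (hG.sh 1)) (hG.sh (-1))
  have hB := h.A_add ((hG.sh 0).smul 2) (hG.sh 1)
  have hC : A mu (fun y => 2 * G (sh 0 y)) = 2 * A mu (fun y => G (sh 0 y)) := A_smul _ _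
  show _ = A mu (fun y => 2 * G (sh 0 y) + G (sh 1 y) + G (sh (-1) y))
  rw [hA, hB, hC]
  rfl

theorem Wt.A_Lm (h : Wt lam mu) {G : ℤ × ℤ → ℝ} (hG : BS G) (m : ℕ) :
    lam ^ m * A mu G = A mu (L^[m] G) := by
  induction m with
  | zero => simp
  | succ m ih =>
    rw [Function.iterate_succ_apply', ← h.A_L (hG.Lm m), ← ih]
    ring

/-- Radii. -/
noncomputable def C : ℕ → ℝ
  | 0 => 0
  | m + 1 => C m + g ^ m

theorem C_nonneg (m : ℕ) : 0 ≤ C m := by
  induction m with
  | zero => simp [C]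
  | succ m ih => simp only [C]; have := pow_pos g_pos m; linarith

theorem loc (m : ℕ) (G1 G2 H : ℤ × ℤ → ℝ) (y0 : ℤ × ℤ)
    (hh : ∀ y, |val y - g ^ m * val y0| ≤ C m → |G1 y - G2 y| ≤ H y) :
    |L^[m] G1 y0 - L^[m] G2 y0| ≤ L^[m] H y0 := by
  induction m generalizing y0 with
  | zero =>
    simp only [Function.iterate_zero, id_eq]
    apply hh
    simp [C]
  | succ m ih =>
    have hstep : ∀ c : ℤ, |(c : ℝ)| ≤ 1 → |L^[m] G1 (sh c y0) - L^[m] G2 (sh c y0)| ≤ L^[m] H (sh c y0) := by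
      intro c hc
      apply ih
      intro y hy
      apply hh
      rw [val_sh] at hy
      simp only [C]
      have e : val y - g ^ (m + 1) * val y0 = (val y - g ^ m * (g * val y0 + c)) + g ^ m * c := by ring
      rw [e]
      refine (abs_add_le _ _).trans ?_
      have : |g ^ m * (c : ℝ)| ≤ g ^ m := by
        rw [abs_mul, abs_of_pos (pow_pos g_pos m)]
        have := pow_pos g_pos m
        nlinarith
      linarith
    have h0 := hstep 0 (by simp)
    have h1 := hstep 1 (by simp)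
    have h2 := hstep (-1) (by simp)
    simp only [Function.iterate_succ_apply', L]
    rw [abs_le] at *
    constructor <;> linarith [h0.1, h0.2, h1.1, h1.2, h2.1, h2.2]

/-- The product of cosines. -/
noncomputable def P : ℕ → ℝ
  | 0 => 1
  | m + 1 => P m * Real.cos (Real.pi * (1 - g) ^ m) ^ 2

theorem P_le (m : ℕ) : P m ≤ 1 ∧ 0 ≤ P m := by
  induction m with
  | zero => simp [P]
  | succ m ih =>
    have h1 := Real.cos_sq_le_one (Real.pi * (1 - g) ^ m)
    have h2 := sq_nonneg (Real.cos (Real.pi * (1 - g) ^ m))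
    simp only [P]
    constructor <;> nlinarith [ih.1, ih.2]

theorem cos_ne (m : ℕ) : Real.cos (Real.pi * (1 - g) ^ m) ≠ 0 := by
  have hg := g_lo
  have hg2 := g_hi
  have hpi := Real.pi_pos
  rcases m with _ | _ | m
  · simp
  · apply ne_of_lt
    have : Real.cos (Real.pi * (1 - g) ^ (0 + 1)) = Real.cos (Real.pi * (g - 1)) := by
      rw [← Real.cos_neg]; congr 1; ring
    rw [this]
    apply Real.cos_neg_of_pi_div_two_lt_of_lt <;> nlinarith
  · apply ne_of_gt
    apply Real.cos_pos_of_mem_Ioo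
    have h1 : |(1 - g) ^ (m + 2)| ≤ 0.4 := by
      rw [abs_pow]
      have ha : |1 - g| ≤ 0.6181 := by rw [abs_le]; constructor <;> linarith
      have hb : |1 - g| ^ m ≤ 1 := pow_le_one₀ (abs_nonneg _) (by linarith)
      have hc : |1 - g| ^ 2 ≤ 0.4 := by nlinarith [abs_nonneg (1 - g)]
      have hd : 0 ≤ |1 - g| ^ m := by positivity
      rw [pow_add]
      nlinarith [sq_nonneg |1 - g|]
    rw [abs_le] at h1
    constructor <;> nlinarith [h1.1, h1.2]

theorem P_pos (m : ℕ) : 0 < P m := by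
  induction m with
  | zero => simp [P]
  | succ m ih =>
    simp only [P]
    have := cos_ne m
    positivity

theorem eig (K : ℝ) (m : ℕ) (y0 : ℤ × ℤ) :
    L^[m] (fun y => K * Real.cos (2 * Real.pi * cnj y)) y0
      = K * 4 ^ m * P m * Real.cos (2 * Real.pi * ((1 - g) ^ m * cnj y0)) := by
  induction m generalizing y0 with
  | zero => simp [P]
  | succ m ih =>
    simp only [Function.iterate_succ_apply', L]
    rw [ih, ih, ih, cnj_sh, cnj_sh, cnj_sh]
    simp only [P]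
    set α := 2 * Real.pi * ((1 - g) ^ (m + 1) * cnj y0) with hα
    set β := Real.pi * (1 - g) ^ m with hβ
    have e0 : 2 * Real.pi * ((1 - g) ^ m * ((1 - g) * cnj y0 + ((0 : ℤ) : ℝ))) = α := by
      rw [hα]; push_cast; ring
    have e1 : 2 * Real.pi * ((1 - g) ^ m * ((1 - g) * cnj y0 + ((1 : ℤ) : ℝ))) = α + 2 * β := by
      rw [hα, hβ]; push_cast; ring
    have e2 : 2 * Real.pi * ((1 - g) ^ m * ((1 - g) * cnj y0 + ((-1 : ℤ) : ℝ))) = α - 2 * β := by
      rw [hα, hβ]; push_cast; ring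
    rw [e0, e1, e2, Real.cos_add, Real.cos_sub]
    have h2 := Real.cos_two_mul β
    rw [h2]
    ring

theorem eig1 (K : ℝ) (m : ℕ) (y0 : ℤ × ℤ) : L^[m] (fun _ => K) y0 = 4 ^ m * K := by
  induction m generalizing y0 with
  | zero => simp
  | succ m ih =>
    simp only [Function.iterate_succ_apply', L]
    rw [ih, ih, ih]
    ring

theorem cos_val (y : ℤ × ℤ) : Real.cos (2 * Real.pi * val y) = Real.cos (2 * Real.pi * cnj y) := by
  have e : 2 * Real.pi * val y = ((2 * y.1 + y.2 : ℤ) : ℝ) * (2 * Real.pi) - 2 * Real.pi * cnj y := by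
    simp only [val, cnj]; push_cast; ring
  rw [e, Real.cos_int_mul_two_pi_sub]

/-- indicator of `[0,R]`. -/
noncomputable def ind (R : ℝ) (t : ℝ) : ℝ := if 0 ≤ t ∧ t ≤ R then 1 else 0

/-- indicator of `[-R,R]`. -/
noncomputable def inn (R : ℝ) (t : ℝ) : ℝ := if |t| ≤ R then 1 else 0

theorem ind_nonneg (R t : ℝ) : 0 ≤ ind R t := by unfold ind; split_ifs <;> norm_num
theorem inn_nonneg (R t : ℝ) : 0 ≤ inn R t := by unfold inn; split_ifs <;> norm_num

theorem ind_diff {R s t c : ℝ} (h : |s - t| ≤ c) :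
    |ind R s - ind R t| ≤ inn c s + inn c (s - R) := by
  rw [abs_le] at h
  unfold ind inn
  by_cases h1 : 0 ≤ s ∧ s ≤ R <;> by_cases h2 : 0 ≤ t ∧ t ≤ R <;>
    by_cases h3 : |s| ≤ c <;> by_cases h4 : |s - R| ≤ c <;> simp only [h1, h2, h3, h4, if_true, if_false] <;>
    norm_num
  all_goals
    rw [abs_le, not_and_or] at h3 h4
    rw [not_and_or] at *
    push Not at *
  · obtain ⟨h1a, h1b⟩ := h1
    rcases h2 with h2 | h2 <;> rcases h3 with h3 | h3 <;> rcases h4 with h4 | h4 <;> linarith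
  · obtain ⟨h2a, h2b⟩ := h2
    rcases h1 with h1 | h1 <;> rcases h3 with h3 | h3 <;> rcases h4 with h4 | h4 <;> linarith

theorem ind_BS (R : ℝ) : BS (fun y => ind R (val y)) := by
  refine ⟨|R|, fun y hy => ?_⟩
  simp only [ind] at hy
  split_ifs at hy with h
  · rw [abs_of_nonneg h.1, abs_of_nonneg (h.1.trans h.2)]; exact h.2
  · exact absurd rfl hy

theorem inn_BS (R t : ℝ) : BS (fun y => inn R (val y - t)) := by
  refine ⟨|R| + |t|, fun y hy => ?_⟩
  simp only [inn] at hy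
  split_ifs at hy with h
  · have : |val y| ≤ |val y - t| + |t| := by
      calc |val y| = |(val y - t) + t| := by ring_nf
        _ ≤ _ := abs_add_le _ _
    have h2 := le_abs_self R
    linarith
  · exact absurd rfl hy

theorem inn_BS' (R : ℝ) : BS (fun y => inn R (val y)) := by
  have := inn_BS R 0
  simpa using this

/-- The error function. -/
noncomputable def Hm (c R : ℝ) : ℤ × ℤ → ℝ := fun y => inn c (val y) + inn c (val y - R)

theorem Hm_BS (c R : ℝ) : BS (Hm c R) := (inn_BS' c).add (inn_BS c R)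

/-- Mass of `[0,R]`. -/
noncomputable def Wr (mu : ℤ × ℤ → ℝ) (R : ℝ) : ℝ := A mu (fun y => ind R (val y))

/-- The integral of the cosine over `[0,R]`. -/
noncomputable def J (mu : ℤ × ℤ → ℝ) (R : ℝ) : ℝ :=
  A mu (fun y => ind R (val y) * Real.cos (2 * Real.pi * val y))

/-- Mass of `[-R,R]`. -/
noncomputable def V (mu : ℤ × ℤ → ℝ) (R : ℝ) : ℝ := A mu (fun y => inn R (val y))

theorem indm_BS (m : ℕ) (R : ℝ) : BS (fun y => ind R (g ^ m * val y)) := by
  refine ⟨|R|, fun y hy => ?_⟩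
  simp only [ind] at hy
  have hg : 1 ≤ g ^ m := one_le_pow₀ (by linarith [g_lo])
  split_ifs at hy with h
  · have h0 : 0 ≤ val y := by
      by_contra hc
      push Not at hc
      nlinarith [h.1]
    rw [abs_of_nonneg h0, abs_of_nonneg (h.1.trans h.2)]
    nlinarith [h.2]
  · exact absurd rfl hy

theorem Wt.main (h : Wt lam mu) (m : ℕ) (hm : 2 * Real.pi * ((g - 1) ^ m * g ^ 2) ≤ 1) (R : ℝ) :
    P m / 2 * Wr mu R - 2 * A mu (Hm (C m) R) ≤ J mu R := by
  have hlam : 0 < lam := by linarith [h.lo]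
  have hlm : 0 < lam ^ m := pow_pos hlam m
  set H := Hm (C m) R with hH
  have hHB : BS H := Hm_BS _ _
  have hLH : BS (L^[m] H) := hHB.Lm m
  -- lower bound for J
  have hG1 : BS (fun y => ind R (val y) * Real.cos (2 * Real.pi * val y)) := (ind_BS R).mul_right _
  have hp := P_pos m
  have hI := indm_BS m R
  have low : ∀ y, |cnj y| ≤ g ^ 2 → (4 ^ m * P m * (1 / 2)) * ind R (g ^ m * val y) - L^[m] H y
      ≤ L^[m] (fun y => ind R (val y) * Real.cos (2 * Real.pi * val y)) y := by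
    intro y hy
    have h1 := loc m (fun y => ind R (val y) * Real.cos (2 * Real.pi * val y))
      (fun y' => ind R (g ^ m * val y) * Real.cos (2 * Real.pi * cnj y')) H y ?_
    · rw [eig] at h1
      have hcos : (1 / 2 : ℝ) ≤ Real.cos (2 * Real.pi * ((1 - g) ^ m * cnj y)) := by
        have hx : |2 * Real.pi * ((1 - g) ^ m * cnj y)| ≤ 1 := by
          rw [abs_mul, abs_mul ((1 - g) ^ m), abs_pow, abs_of_pos (by positivity : (0 : ℝ) < 2 * Real.pi)]
          have e : |1 - g| = g - 1 := by rw [abs_sub_comm, abs_of_pos (by linarith [g_lo])]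
          rw [e]
          refine le_trans ?_ hm
          have : 0 ≤ (g - 1) ^ m := pow_nonneg (by linarith [g_lo]) m
          gcongr
        have hx2 := Real.one_sub_sq_div_two_le_cos (x := 2 * Real.pi * ((1 - g) ^ m * cnj y))
        have hx3 : (2 * Real.pi * ((1 - g) ^ m * cnj y)) ^ 2 ≤ 1 := by
          rw [← sq_abs]; exact pow_le_one₀ (abs_nonneg _) hx
        linarith
      rw [abs_le] at h1
      have hnn := ind_nonneg R (g ^ m * val y)
      have : (4 ^ m * P m * (1 / 2)) * ind R (g ^ m * val y) ≤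
          ind R (g ^ m * val y) * 4 ^ m * P m * Real.cos (2 * Real.pi * ((1 - g) ^ m * cnj y)) := by
        have hq : 0 ≤ ind R (g ^ m * val y) * 4 ^ m * P m := by positivity
        nlinarith
      linarith [h1.1]
    · intro y' hy'
      rw [cos_val, ← sub_mul, abs_mul]
      have hc1 := Real.abs_cos_le_one (2 * Real.pi * cnj y')
      have hd := ind_diff (R := R) hy'
      have : |ind R (val y') - ind R (g ^ m * val y)| * |Real.cos (2 * Real.pi * cnj y')|
          ≤ |ind R (val y') - ind R (g ^ m * val y)| * 1 := by gcongr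
      simp only [hH, Hm]
      linarith
  have up : ∀ y, |cnj y| ≤ g ^ 2 → L^[m] (fun y => ind R (val y)) y ≤
      4 ^ m * ind R (g ^ m * val y) + L^[m] H y := by
    intro y _
    have h1 := loc m (fun y => ind R (val y)) (fun _ => ind R (g ^ m * val y)) H y ?_
    · rw [eig1] at h1
      rw [abs_le] at h1
      linarith [h1.2]
    · intro y' hy'
      simp only [hH, Hm]
      exact ind_diff (R := R) hy'
  have a1 := h.A_mono ((hI.smul (4 ^ m * P m * (1 / 2))).sub hLH) (hG1.Lm m) low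
  have a2 := h.A_mono ((ind_BS R).Lm m) ((hI.smul (4 ^ m)).add hLH) up
  rw [h.A_sub (hI.smul _) hLH, A_smul, ← h.A_Lm hG1, ← h.A_Lm hHB] at a1
  rw [h.A_add (hI.smul _) hLH, A_smul, ← h.A_Lm (ind_BS R), ← h.A_Lm hHB] at a2
  have hHA : 0 ≤ A mu H := tsum_nonneg fun y =>
    mul_nonneg (h.nonneg y) (add_nonneg (inn_nonneg _ _) (inn_nonneg _ _))
  have hP1 := (P_le m).1
  show P m / 2 * A mu (fun y => ind R (val y)) - 2 * A mu H ≤
    A mu (fun y => ind R (val y) * Real.cos (2 * Real.pi * val y))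
  set J0 := A mu (fun y => ind R (val y) * Real.cos (2 * Real.pi * val y))
  set W0 := A mu (fun y => ind R (val y))
  set I0 := A mu (fun y => ind R (g ^ m * val y))
  set A0 := A mu H
  -- lam^m J0 ≥ 4^m P/2 I0 - lam^m A0 ; lam^m W0 ≤ 4^m I0 + lam^m A0
  have h3 : P m / 2 * (lam ^ m * W0) ≤ P m / 2 * (4 ^ m * I0 + lam ^ m * A0) := by gcongr
  have h4 : lam ^ m * (P m / 2 * W0 - 2 * A0) ≤ lam ^ m * J0 := by
    have h5 : P m / 2 * (lam ^ m * A0) ≤ 1 * (lam ^ m * A0) := by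
      have : 0 ≤ lam ^ m * A0 := by positivity
      gcongr
      linarith
    nlinarith
  exact le_of_mul_le_mul_left h4 hlm

/-! ### growth of the mass -/

theorem Wt.V_mono (h : Wt lam mu) {R S : ℝ} (hRS : R ≤ S) : V mu R ≤ V mu S := by
  apply h.A_mono (inn_BS' R) (inn_BS' S)
  intro y _
  unfold inn
  split_ifs with h1 h2 <;> norm_num
  exact h2 (h1.trans hRS)

theorem Wt.V_zero (h : Wt lam mu) {R : ℝ} (hR : 0 ≤ R) : mu 0 ≤ V mu R := by
  have hs := h.summable (inn_BS' R)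
  have := hs.le_tsum (0 : ℤ × ℤ) (fun y _ => mul_nonneg (h.nonneg y) (inn_nonneg _ _))
  refine le_trans ?_ this
  simp [inn, val, hR]

theorem Wt.V_up (h : Wt lam mu) {R S : ℝ} (hRS : (R + 1) / g ≤ S) : V mu R ≤ 2 * V mu S := by
  have h1 : lam * V mu R = A mu (L (fun y => inn R (val y))) := h.A_L (inn_BS' R)
  have h2 : A mu (L (fun y => inn R (val y))) ≤ A mu (fun y => 4 * inn S (val y)) := by
    apply h.A_mono (inn_BS' R).L ((inn_BS' S).smul 4)
    intro y _
    simp only [L]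
    have key : ∀ c : ℤ, |(c : ℝ)| ≤ 1 → inn R (val (sh c y)) ≤ inn S (val y) := by
      intro c hc
      rw [val_sh]
      unfold inn
      split_ifs with h3 h4 <;> norm_num
      apply h4
      have h5 : |g * val y| ≤ R + 1 := by
        calc |g * val y| = |(g * val y + c) - c| := by ring_nf
          _ ≤ |g * val y + c| + |(c : ℝ)| := abs_sub _ _
          _ ≤ R + 1 := by linarith
      rw [abs_mul, abs_of_pos g_pos] at h5
      refine le_trans ?_ hRS
      rw [le_div_iff₀ g_pos]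
      linarith
    have k0 := key 0 (by simp)
    have k1 := key 1 (by simp)
    have k2 := key (-1) (by simp)
    linarith
  rw [A_smul] at h2
  have h3 : lam * V mu R ≤ 4 * V mu S := by rw [h1]; exact h2
  have hV : 0 ≤ V mu R := tsum_nonneg fun y => mul_nonneg (h.nonneg y) (inn_nonneg _ _)
  nlinarith [h.lo]

theorem Wt.V_lo (h : Wt lam mu) {R S : ℝ} (hRS : g * R + 1 ≤ S) : 1.6 * V mu R ≤ V mu S := by
  have h1 : lam * V mu S = A mu (L (fun y => inn S (val y))) := h.A_L (inn_BS' S)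
  have h2 : A mu (fun y => 4 * inn R (val y)) ≤ A mu (L (fun y => inn S (val y))) := by
    apply h.A_mono ((inn_BS' R).smul 4) (inn_BS' S).L
    intro y _
    simp only [L]
    have key : ∀ c : ℤ, |(c : ℝ)| ≤ 1 → inn R (val y) ≤ inn S (val (sh c y)) := by
      intro c hc
      rw [val_sh]
      unfold inn
      split_ifs with h3 h4 <;> norm_num
      apply h4
      refine (abs_add_le _ _).trans ?_
      rw [abs_mul, abs_of_pos g_pos]
      have := mul_le_mul_of_nonneg_left h3 g_pos.le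
      linarith
    have k0 := key 0 (by simp)
    have k1 := key 1 (by simp)
    have k2 := key (-1) (by simp)
    linarith
  rw [A_smul] at h2
  have h3 : 4 * V mu R ≤ lam * V mu S := by rw [h1]; exact h2
  have hV : 0 ≤ V mu S := tsum_nonneg fun y => mul_nonneg (h.nonneg y) (inn_nonneg _ _)
  nlinarith [h.hi]

theorem Wt.V_unb (h : Wt lam mu) (B : ℝ) : ∃ R : ℝ, 0 ≤ R ∧ B ≤ V mu R := by
  have key : ∀ k : ℕ, ∃ R : ℝ, 0 ≤ R ∧ 1.6 ^ k * mu 0 ≤ V mu R := by
    intro k
    induction k with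
    | zero => exact ⟨0, le_refl _, by simpa using h.V_zero (le_refl 0)⟩
    | succ k ih =>
      obtain ⟨R, hR, hk⟩ := ih
      refine ⟨g * R + 1, by have := g_pos; positivity, ?_⟩
      have := h.V_lo (le_refl (g * R + 1))
      rw [pow_succ]
      nlinarith
  obtain ⟨k, hk⟩ := pow_unbounded_of_one_lt (B / mu 0) (by norm_num : (1 : ℝ) < 1.6)
  obtain ⟨R, hR, h1⟩ := key k
  refine ⟨R, hR, ?_⟩
  rw [div_lt_iff₀ h.zero] at hk
  linarith

theorem Wt.V_slow (h : Wt lam mu) (δ : ℝ) (hδ : 0 < δ) (T n0 : ℕ) :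
    ∃ n ≥ n0, V mu ((n + T : ℕ) : ℝ) ≤ (1 + δ) * V mu (n : ℝ) := by
  by_contra hc
  push Not at hc
  have hpow : ∀ j k : ℕ, n0 ≤ k → (1 + δ) ^ j * V mu (k : ℝ) ≤ V mu ((k + j * T : ℕ) : ℝ) := by
    intro j
    induction j with
    | zero => intro k _; simp
    | succ j ih =>
      intro k hk
      have h1 := ih k hk
      have h2 := hc (k + j * T) (by omega)
      have e : k + j * T + T = k + (j + 1) * T := by ring
      rw [e] at h2
      rw [pow_succ]
      nlinarith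
  obtain ⟨j0, hj0⟩ := pow_unbounded_of_one_lt 2 (by linarith : (1 : ℝ) < 1 + δ)
  -- choose j large
  rcases Nat.eq_zero_or_pos T with hT | hT
  · have := hc n0 (le_refl _)
    rw [hT] at this
    have hV := h.V_zero (R := (n0 : ℝ)) (Nat.cast_nonneg _)
    have := h.zero
    simp only [add_zero] at *
    nlinarith
  set j := j0 + n0 + 5 with hj
  have hjT : j ≤ j * T := Nat.le_mul_of_pos_right j hT
  have h1 := hpow j (2 * (j * T)) (by omega)
  have h2 : V mu ((2 * (j * T) + j * T : ℕ) : ℝ) ≤ 2 * V mu ((2 * (j * T) : ℕ) : ℝ) := by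
    apply h.V_up
    rw [div_le_iff₀ g_pos]
    have hq : (5 : ℝ) ≤ ((j * T : ℕ) : ℝ) := by exact_mod_cast (by omega : 5 ≤ j * T)
    have hg := g_lo
    push_cast at hq ⊢
    nlinarith
  have hV := h.V_zero (R := ((2 * (j * T) : ℕ) : ℝ)) (Nat.cast_nonneg _)
  have h0 := h.zero
  have h3 : (2 : ℝ) < (1 + δ) ^ j := by
    refine hj0.trans_le ?_
    apply pow_le_pow_right₀ (by linarith) (by omega)
  nlinarith

theorem Wt.V_le_W (h : Wt lam mu) (R : ℝ) : V mu R ≤ 2 * Wr mu R := by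
  have e : A mu (fun y => ind R (- val y)) = Wr mu R := by
    unfold Wr A
    rw [← (Equiv.neg (ℤ × ℤ)).tsum_eq]
    congr 1
    ext y
    simp only [Equiv.neg_apply]
    rw [h.sym, val_neg, neg_neg]
  have hB : BS (fun y => ind R (- val y)) := by
    obtain ⟨S, hS⟩ := ind_BS R
    refine ⟨S, fun y hy => ?_⟩
    have := hS (-y) (by show ind R (val (-y)) ≠ 0; rw [val_neg]; exact hy)
    rwa [val_neg, abs_neg] at this
  have h1 : V mu R ≤ A mu (fun y => ind R (val y) + ind R (- val y)) := by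
    apply h.A_mono (inn_BS' R) ((ind_BS R).add hB)
    intro y _
    unfold inn ind
    split_ifs with h1 h2 h3 h4 <;> norm_num
    all_goals
      rw [abs_le] at h1
      rw [not_and_or] at *
      push Not at *
    rcases h2 with h2 | h2 <;> rcases h4 with h4 | h4 <;> linarith
  rw [h.A_add (ind_BS R) hB, e] at h1
  have : Wr mu R = A mu (fun y => ind R (val y)) := rfl
  linarith

theorem Wt.err (h : Wt lam mu) (c : ℝ) (δ : ℝ) (hδ : 0 < δ) (n0 : ℕ) :
    ∃ n ≥ n0, A mu (Hm c (n : ℝ)) ≤ δ * Wr mu (n : ℝ) := by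
  obtain ⟨K, hK⟩ := exists_nat_ge c
  obtain ⟨R1, hR1, hV1⟩ := h.V_unb (4 / δ * V mu c)
  obtain ⟨N1, hN1⟩ := exists_nat_ge R1
  obtain ⟨k, hk, hkV⟩ := h.V_slow (δ / 4) (by positivity) (2 * K + 1) (n0 + N1)
  refine ⟨k + K + 1, by omega, ?_⟩
  have hb : A mu (Hm c ((k + K + 1 : ℕ) : ℝ)) = V mu c + A mu (fun y => inn c (val y - ((k + K + 1 : ℕ) : ℝ))) := by
    unfold Hm
    rw [h.A_add (inn_BS' c) (inn_BS c _)]
    rfl
  have h2 : A mu (fun y => inn c (val y - ((k + K + 1 : ℕ) : ℝ))) ≤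
      A mu (fun y => inn ((k + (2 * K + 1) : ℕ) : ℝ) (val y) - inn (k : ℝ) (val y)) := by
    apply h.A_mono (inn_BS _ _) ((inn_BS' _).sub (inn_BS' _))
    intro y _
    unfold inn
    split_ifs with h1 h2 h3 h4 <;> norm_num
    · rw [abs_le] at h1 h3
      push_cast at h1 h3
      linarith
    · exfalso
      apply h2
      rw [abs_le] at h1 ⊢
      push_cast at h1 ⊢
      constructor <;> linarith
    · exfalso
      apply h2
      rw [abs_le] at h1 ⊢
      push_cast at h1 ⊢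
      constructor <;> linarith
    all_goals
      rename_i h5 h6
      exfalso
      apply h5
      rw [abs_le] at h6 ⊢
      push_cast
      constructor <;> linarith
  rw [h.A_sub (inn_BS' _) (inn_BS' _)] at h2
  have h3 : V mu (k : ℝ) ≤ V mu ((k + K + 1 : ℕ) : ℝ) := by
    apply h.V_mono
    push_cast
    have : (0 : ℝ) ≤ K := Nat.cast_nonneg _
    linarith
  have h4 : V mu R1 ≤ V mu ((k + K + 1 : ℕ) : ℝ) := by
    apply h.V_mono
    have : ((N1 : ℕ) : ℝ) ≤ ((k + K + 1 : ℕ) : ℝ) := by exact_mod_cast (by omega : N1 ≤ k + K + 1)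
    linarith
  have h5 := h.V_le_W ((k + K + 1 : ℕ) : ℝ)
  have h6 : V mu c ≤ δ / 4 * V mu ((k + K + 1 : ℕ) : ℝ) := by
    have : 4 / δ * V mu c ≤ V mu ((k + K + 1 : ℕ) : ℝ) := hV1.trans h4
    calc V mu c = δ / 4 * (4 / δ * V mu c) := by field_simp
      _ ≤ _ := by gcongr
  have h7 : A mu (fun y => inn c (val y - ((k + K + 1 : ℕ) : ℝ))) ≤ δ / 4 * V mu ((k + K + 1 : ℕ) : ℝ) := by
    have e1 : A mu (fun y => inn ((k + (2 * K + 1) : ℕ) : ℝ) (val y)) = V mu ((k + (2 * K + 1) : ℕ) : ℝ) := rfl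
    have e2 : A mu (fun y => inn (k : ℝ) (val y)) = V mu (k : ℝ) := rfl
    rw [e1, e2] at h2
    have : δ / 4 * V mu (k : ℝ) ≤ δ / 4 * V mu ((k + K + 1 : ℕ) : ℝ) := by gcongr
    linarith
  rw [hb]
  have h8 : δ / 4 * V mu ((k + K + 1 : ℕ) : ℝ) ≤ δ / 4 * (2 * Wr mu ((k + K + 1 : ℕ) : ℝ)) := by gcongr
  linarith

/-- Main conclusion for the weights on pairs. -/
theorem Wt.final (h : Wt lam mu) : ∃ ε > 0, ∀ n0 : ℕ, ∃ n ≥ n0, ε * Wr mu (n : ℝ) ≤ J mu (n : ℝ) := by
  have hgm : ∃ m : ℕ, 2 * Real.pi * ((g - 1) ^ m * g ^ 2) ≤ 1 := by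
    have hg := g_lo
    have hg2 := g_hi
    have : Tendsto (fun m : ℕ => 2 * Real.pi * ((g - 1) ^ m * g ^ 2)) atTop (𝓝 (2 * Real.pi * (0 * g ^ 2))) := by
      apply Tendsto.const_mul
      apply Tendsto.mul_const
      exact tendsto_pow_atTop_nhds_zero_of_lt_one (by linarith) (by linarith)
    rw [zero_mul, mul_zero] at this
    exact ((this.eventually (Iic_mem_nhds one_pos)).exists)
  obtain ⟨m, hm⟩ := hgm
  have hp := P_pos m
  refine ⟨P m / 4, by positivity, fun n0 => ?_⟩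
  obtain ⟨n, hn, hn2⟩ := h.err (C m) (P m / 8) (by positivity) n0
  refine ⟨n, hn, ?_⟩
  have := h.main m hm (n : ℝ)
  linarith

end Pool.Agent.R201.Golden
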