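import Mathlib

/-!
# Khintchin sequences: definitions
-/

set_option autoImplicit false

open MeasureTheory Filter Topology

namespace Pool.Agent.R201.Kh

/-- `f` is in the Khintchin class of the sequence `(lam n)_{n ≥ 1}`: the averages
`(1/N) ∑_{n=1}^N f(lam n x)` converge to `∫ f` for almost every `x` of the circle `ℝ/ℤ` -/
def InKhintchinClass (lam : ℕ → ℕ) (f : UnitAddCircle → ℝ) : Prop :=
  ∀ᵐ x : UnitAddCircle, Tendsto (fun N : ℕ => (∑ n ∈ Finset.Icc 1 N, f (lam n • x)) / N) atTop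
    (𝓝 (∫ y, f y))

/-- `(lam n)_{n ≥ 1}` is a Khintchin sequence: every integrable function is in its Khintchin
class -/
def IsKhintchin (lam : ℕ → ℕ) : Prop :=
  ∀ f : UnitAddCircle → ℝ, Integrable f → InKhintchinClass lam f

/-- the product sequence `P n = w_n w_{n-1} ⋯ w_1` of `w = (w_1, w_2, …)`, where `w_k` is written
`w (k - 1)` -/
def prodSeq (w : ℕ → ℕ) (n : ℕ) : ℕ := ∏ k ∈ Finset.range n, w k

/-- the number of letters `2` and of letters `3` among the first `n` letters -/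
def S (w : ℕ → ℕ) (n : ℕ) : ℕ × ℕ :=
  (((Finset.range n).filter fun k => w k = 2).card, ((Finset.range n).filter fun k => w k = 3).card)

/-- the structure that is used to disprove the Khintchin property -/
def Rich (w : ℕ → ℕ) : Prop :=
  ∀ K T : ℕ, ∃ (H : Finset (ℕ × ℕ)) (t : Fin K → ℕ) (W : Fin K → Finset (ℕ × ℕ)),
    H.Nonempty ∧ (∀ i, T ≤ t i ∧ 1 ≤ t i) ∧ (∀ i j, i ≠ j → Disjoint (W i) (W j)) ∧
    (∀ i, H.card ≤ 3 * (W i).card) ∧
    ∀ i, ∀ v ∈ W i, ∀ n, t i ≤ n → n ≤ 2 * t i → ∃ h ∈ H, v = S w n + h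

/-- the integer `2 ^ a * 3 ^ b` -/
def mm (v : ℕ × ℕ) : ℕ := 2 ^ v.1 * 3 ^ v.2

lemma mm_add (v w : ℕ × ℕ) : mm (v + w) = mm v * mm w := by
  simp only [mm, Prod.fst_add, Prod.snd_add, pow_add]
  ring

lemma mm_pos (v : ℕ × ℕ) : 0 < mm v := by
  unfold mm
  positivity

lemma prodSeq_eq {w : ℕ → ℕ} (hw : ∀ k, w k = 2 ∨ w k = 3) (n : ℕ) : prodSeq w n = mm (S w n) := by
  induction n with
  | zero => simp [prodSeq, mm, S]
  | succ n ih =>
    have h1 : prodSeq w (n + 1) = prodSeq w n * w n := Finset.prod_range_succ _ _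
    rw [h1, ih]
    unfold mm S
    simp only [Finset.range_add_one, Finset.filter_insert]
    rcases hw n with h | h
    · simp [h, pow_succ]
      ring
    · simp [h, pow_succ]
      ring

end Pool.Agent.R201.Kh
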