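import Pool.Agent.R201.KhTower

/-!
# Rich sequences do not give Khintchin sequences
-/

set_option autoImplicit false

open MeasureTheory Filter Topology

namespace Pool.Agent.R201.Kh


/-- the averages -/
noncomputable def avg (lam : ℕ → ℕ) (f : UnitAddCircle → ℝ) (x : UnitAddCircle) (N : ℕ) : ℝ :=
  (∑ n ∈ Finset.Icc 1 N, f (lam n • x)) / N

/-- one window -/
lemma window {w : ℕ → ℕ} (hw : ∀ k, w k = 2 ∨ w k = 3) (hR : Rich w) (l : ℕ) :
    ∃ B U : Set UnitAddCircle, MeasurableSet B ∧ MeasurableSet U ∧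
      volume B ≤ ENNReal.ofReal ((1 / 2) ^ (l + 3)) ∧ 1 / 2 ≤ volume.real U ∧
      ∀ B' : Set UnitAddCircle, B ⊆ B' → ∀ x ∈ U, ∃ N, l ≤ N ∧
        1 / 2 ≤ avg (prodSeq w) (B'.indicator fun _ => 1) x N := by
  classical
  obtain ⟨H, t, W, hH, ht, hdisj, hcard, hwin⟩ := hR (72 * 2 ^ (l + 3)) l
  have hHc : (0 : ℝ) < H.card := by exact_mod_cast hH.card_pos
  set ε : ℝ := 1 / (2 * (H.card * 2 ^ (l + 3))) with hε
  have h2ε : 2 * ε = 1 / (H.card * 2 ^ (l + 3)) := by
    rw [hε]
    field_simp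
  have h0 : 0 ≤ ε := by positivity
  have h1 : 2 * ε ≤ 1 := by
    rw [h2ε, div_le_one (by positivity)]
    have h3 : (1 : ℝ) ≤ H.card := by exact_mod_cast hH.card_pos
    have h4 : (1 : ℝ) ≤ 2 ^ (l + 3) := one_le_pow₀ (by norm_num)
    nlinarith
  refine ⟨⋃ h ∈ H, A ε h, ⋃ v ∈ Finset.univ.biUnion W, A ε v,
    Finset.measurableSet_biUnion _ fun v _ => measurableSet_A ε v,
    Finset.measurableSet_biUnion _ fun v _ => measurableSet_A ε v, ?_, ?_, ?_⟩
  · refine (measure_biUnion_finset_le _ _).trans ?_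
    have h3 : ∀ h ∈ H, volume (A ε h) = ENNReal.ofReal (2 * ε) := by
      intro h _
      rw [volume_A, C, AddCircle.volume_closedBall, min_eq_right h1]
    rw [Finset.sum_congr rfl h3, Finset.sum_const, nsmul_eq_mul, ← ENNReal.ofReal_natCast,
      ← ENNReal.ofReal_mul (by positivity)]
    refine ENNReal.ofReal_le_ofReal (le_of_eq ?_)
    rw [h2ε, one_div_pow]
    field_simp
  · refine union_lower h0 h1 _ ?_
    have h3 : (Finset.univ.biUnion W).card = ∑ i, (W i).card :=
      Finset.card_biUnion fun i _ j _ hij => hdisj i j hij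
    have h4 : (72 * 2 ^ (l + 3)) * H.card ≤ 3 * ∑ i, (W i).card := by
      calc (72 * 2 ^ (l + 3)) * H.card = ∑ _i : Fin (72 * 2 ^ (l + 3)), H.card := by simp
        _ ≤ ∑ i, 3 * (W i).card := Finset.sum_le_sum fun i _ => hcard i
        _ = 3 * ∑ i, (W i).card := (Finset.mul_sum _ _ _).symm
    have h5 : ((72 * 2 ^ (l + 3)) * H.card : ℝ) ≤ 3 * ((Finset.univ.biUnion W).card : ℝ) := by
      rw [h3]
      exact_mod_cast h4
    rw [h2ε, div_mul_eq_mul_div, one_mul, le_div_iff₀ (by positivity)]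
    linarith
  · intro B' hB' x hx
    simp only [Set.mem_iUnion, Finset.mem_biUnion, Finset.mem_univ, true_and] at hx
    obtain ⟨v, ⟨i, hvi⟩, hxv⟩ := hx
    refine ⟨2 * t i, by have := (ht i).1; omega, ?_⟩
    have hti := (ht i).2
    have hmem : ∀ n, t i ≤ n → n ≤ 2 * t i → prodSeq w n • x ∈ B' := by
      intro n hn1 hn2
      obtain ⟨h, hh, hv⟩ := hwin i v hvi n hn1 hn2
      refine hB' (Set.mem_biUnion hh ?_)
      show mm h • (prodSeq w n • x) ∈ C ε
      rw [prodSeq_eq hw, ← mul_nsmul, ← mm_add, ← hv]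
      exact hxv
    unfold avg
    have hnn : ∀ n, 0 ≤ B'.indicator (fun _ => (1 : ℝ)) (prodSeq w n • x) := fun n =>
      Set.indicator_nonneg (fun _ _ => zero_le_one) _
    have hsum : ((t i : ℝ) + 1) ≤
        ∑ n ∈ Finset.Icc 1 (2 * t i), B'.indicator (fun _ => (1 : ℝ)) (prodSeq w n • x) := by
      have hsub : Finset.Icc (t i) (2 * t i) ⊆ Finset.Icc 1 (2 * t i) :=
        Finset.Icc_subset_Icc_left hti
      refine le_trans ?_ (Finset.sum_le_sum_of_subset_of_nonneg hsub fun n _ _ => hnn n)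
      have h3 : ∀ n ∈ Finset.Icc (t i) (2 * t i),
          B'.indicator (fun _ => (1 : ℝ)) (prodSeq w n • x) = 1 := by
        intro n hn
        rw [Finset.mem_Icc] at hn
        exact Set.indicator_of_mem (hmem n hn.1 hn.2) _
      rw [Finset.sum_congr rfl h3, Finset.sum_const, Nat.card_Icc, nsmul_eq_mul, mul_one]
      have : 2 * t i + 1 - t i = t i + 1 := by omega
      rw [this]
      push_cast
      exact le_rfl
    have htp : (0 : ℝ) < t i := by exact_mod_cast hti
    push_cast
    rw [le_div_iff₀ (by positivity)]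
    linarith

/-- If `w` is rich, there is a set `B` of measure at most `1/4` such that the averages of its
indicator function along the product sequence exceed `1/2` infinitely often on a set of measure
at least `1/2`. -/
theorem rich_bad {w : ℕ → ℕ} (hw : ∀ k, w k = 2 ∨ w k = 3) (hR : Rich w) :
    ∃ B V : Set UnitAddCircle, MeasurableSet B ∧ MeasurableSet V ∧ volume.real B ≤ 1 / 4 ∧
      1 / 2 ≤ volume.real V ∧ ∀ x ∈ V, ∃ᶠ N in atTop,
        1 / 2 ≤ avg (prodSeq w) (B.indicator fun _ => 1) x N := by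
  choose B U hBm hUm hBv hUv hx using window hw hR
  refine ⟨⋃ l, B l, ⋂ m, ⋃ l, U (m + l), MeasurableSet.iUnion hBm,
    MeasurableSet.iInter fun m => MeasurableSet.iUnion fun l => hUm _, ?_, ?_, ?_⟩
  · have h1 : volume (⋃ l, B l) ≤ ENNReal.ofReal (1 / 4) := by
      refine (measure_iUnion_le _).trans ((ENNReal.tsum_le_tsum hBv).trans ?_)
      have hs : Summable fun l : ℕ => (1 / 2 : ℝ) ^ (l + 3) := by
        simp_rw [pow_add]
        exact (summable_geometric_of_lt_one (by norm_num) (by norm_num)).mul_right _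
      rw [← ENNReal.ofReal_tsum_of_nonneg (fun l => by positivity) hs]
      refine ENNReal.ofReal_le_ofReal (le_of_eq ?_)
      simp_rw [pow_add]
      rw [tsum_mul_right, tsum_geometric_of_lt_one (by norm_num) (by norm_num)]
      norm_num
    exact ENNReal.toReal_le_of_le_ofReal (by norm_num) h1
  · have hanti : Antitone fun m => ⋃ l, U (m + l) := by
      intro m m' hmm x hx'
      simp only [Set.mem_iUnion] at hx' ⊢
      obtain ⟨l, hl⟩ := hx'
      exact ⟨m' - m + l, by rwa [show m + (m' - m + l) = m' + l by omega]⟩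
    have hlim := tendsto_measure_iInter_atTop (μ := (volume : Measure UnitAddCircle))
      (s := fun m => ⋃ l, U (m + l))
      (fun m => (MeasurableSet.iUnion fun l => hUm _).nullMeasurableSet) hanti
      ⟨0, measure_ne_top _ _⟩
    have hge : ∀ m, ENNReal.ofReal (1 / 2) ≤ volume (⋃ l, U (m + l)) := by
      intro m
      have h2 : ENNReal.ofReal (1 / 2) ≤ volume (U m) := by
        rw [← ENNReal.ofReal_toReal (measure_ne_top volume (U m))]
        exact ENNReal.ofReal_le_ofReal (hUv m)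
      exact h2.trans (measure_mono (Set.subset_iUnion (fun l => U (m + l)) 0))
    have h3 := ge_of_tendsto' hlim hge
    rw [Measure.real]
    exact (ENNReal.ofReal_le_iff_le_toReal (measure_ne_top _ _)).1 h3
  · intro x hxV
    rw [frequently_atTop]
    intro m
    have h1 := Set.mem_iInter.1 hxV m
    obtain ⟨l, hl⟩ := Set.mem_iUnion.1 h1
    obtain ⟨N, hN, hN2⟩ := hx (m + l) (⋃ l, B l) (Set.subset_iUnion B (m + l)) x hl
    exact ⟨N, by omega, hN2⟩

/-- Rich sequences have product sequences that are not Khintchin sequences, not even for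
indicator functions. -/
theorem rich_not {w : ℕ → ℕ} (hw : ∀ k, w k = 2 ∨ w k = 3) (hR : Rich w) :
    ∃ B : Set UnitAddCircle, MeasurableSet B ∧ ¬ InKhintchinClass (prodSeq w) (B.indicator fun _ => 1) := by
  obtain ⟨B, V, hB, hV, hBv, hVv, hfr⟩ := rich_bad hw hR
  refine ⟨B, hB, fun hK => ?_⟩
  have hint : ∫ y : UnitAddCircle, B.indicator (fun _ => (1 : ℝ)) y = volume.real B := by
    rw [integral_indicator hB]
    simp
  have hzero : volume V = 0 := by
    refine measure_mono_null (fun x hx => ?_) (ae_iff.1 hK)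
    show ¬ Tendsto _ _ _
    intro hlim
    rw [hint] at hlim
    have h1 : ∀ᶠ N : ℕ in atTop, (∑ n ∈ Finset.Icc 1 N,
        B.indicator (fun _ => (1 : ℝ)) (prodSeq w n • x)) / N < 1 / 2 :=
      hlim.eventually (gt_mem_nhds (by linarith))
    obtain ⟨N, hN1, hN2⟩ := ((hfr x hx).and_eventually h1).exists
    exact absurd hN1 (not_le.2 hN2)
  rw [Measure.real, hzero] at hVv
  norm_num at hVv

theorem rich_not_khintchin {w : ℕ → ℕ} (hw : ∀ k, w k = 2 ∨ w k = 3) (hR : Rich w) :
    ¬ IsKhintchin (prodSeq w) := by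
  intro hK
  obtain ⟨B, hB, hn⟩ := rich_not hw hR
  exact hn (hK _ ((integrable_const (1 : ℝ)).indicator hB))

end Pool.Agent.R201.Kh
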