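import Pool.Agent.R201.KhDefs

/-!
# Tower sets for multiplicative semigroups generated by 2 and 3
-/

set_option autoImplicit false

open MeasureTheory Filter Topology

namespace Pool.Agent.R201.Kh


/-- a closed arc -/
def C (ε : ℝ) : Set UnitAddCircle := Metric.closedBall 0 ε

lemma measurableSet_C (ε : ℝ) : MeasurableSet (C ε) := Metric.isClosed_closedBall.measurableSet

lemma vol_C {ε : ℝ} (h0 : 0 ≤ ε) (h1 : 2 * ε ≤ 1) : volume.real (C ε) = 2 * ε := by
  unfold C Measure.real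
  rw [AddCircle.volume_closedBall, min_eq_right h1, ENNReal.toReal_ofReal (by linarith)]

lemma mp (n : ℕ) (hn : 0 < n) : MeasurePreserving (fun x : UnitAddCircle => n • x) volume volume := by
  have h := Measure.measurePreserving_zsmul (volume : Measure UnitAddCircle) (n := (n : ℤ))
    (by exact_mod_cast hn.ne')
  simpa only [natCast_zsmul] using h

lemma measurable_nsmul' (n : ℕ) : Measurable (fun x : UnitAddCircle => n • x) :=
  (continuous_nsmul n).measurable

lemma norm_torsion {u : ℕ} (hu : 0 < u) {z : UnitAddCircle} (hz : u • z = 0) (h0 : z ≠ 0) :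
    1 / (u : ℝ) ≤ ‖z‖ := by
  have hfin : IsOfFinAddOrder z := isOfFinAddOrder_iff_nsmul_eq_zero.2 ⟨u, hu, hz⟩
  have h1 := AddCircle.le_add_order_smul_norm_of_isOfFinAddOrder hfin h0
  have h2 : addOrderOf z ≤ u := Nat.le_of_dvd hu (addOrderOf_dvd_of_nsmul_eq_zero hz)
  rw [nsmul_eq_mul] at h1
  have hu' : (0 : ℝ) < u := by exact_mod_cast hu
  rw [div_le_iff₀ hu']
  calc (1 : ℝ) ≤ addOrderOf z * ‖z‖ := h1
    _ ≤ u * ‖z‖ := by gcongr
    _ = ‖z‖ * u := mul_comm _ _

/-- the number of points of a `1/u`-separated family in an arc -/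
lemma card_sep {u : ℕ} (hu : 0 < u) {ε : ℝ} (h0 : 0 ≤ ε) (J : Finset ℕ) (z : ℕ → UnitAddCircle)
    (hz : ∀ i ∈ J, z i ∈ C ε) (hsep : ∀ i ∈ J, ∀ j ∈ J, i ≠ j → 1 / (u : ℝ) ≤ ‖z i - z j‖) :
    (J.card : ℝ) ≤ 2 * ε * u + 1 := by
  have hu' : (0 : ℝ) < u := by exact_mod_cast hu
  by_cases hJ : J.card ≤ 1
  · have : (J.card : ℝ) ≤ 1 := by exact_mod_cast hJ
    have h2 : 0 ≤ 2 * ε * u := by positivity
    linarith
  have hu1 : 1 / (u : ℝ) ≤ 1 := by
    rw [div_le_one hu']
    exact_mod_cast hu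
  -- disjoint balls
  have hvol : ∀ i ∈ J, volume (Metric.ball (z i) (1 / (2 * u))) = ENNReal.ofReal (1 / u) := by
    intro i _
    have h1 : volume (Metric.ball (z i) (1 / (2 * (u : ℝ)))) =
        volume (Metric.closedBall (z i) (1 / (2 * (u : ℝ)))) := by
      exact measure_congr AddCircle.closedBall_ae_eq_ball.symm
    rw [h1, AddCircle.volume_closedBall]
    congr 1
    rw [show 2 * (1 / (2 * (u : ℝ))) = 1 / u by field_simp]
    exact min_eq_right hu1
  have hdisj : Set.PairwiseDisjoint (J : Set ℕ) fun i => Metric.ball (z i) (1 / (2 * (u : ℝ))) := by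
    intro i hi j hj hij
    refine Metric.ball_disjoint_ball ?_
    rw [dist_eq_norm]
    refine le_trans (le_of_eq ?_) (hsep i hi j hj hij)
    field_simp
    norm_num
  have hsub : (⋃ i ∈ J, Metric.ball (z i) (1 / (2 * (u : ℝ)))) ⊆
      Metric.closedBall 0 (ε + 1 / (2 * u)) := by
    intro y hy
    simp only [Set.mem_iUnion] at hy
    obtain ⟨i, hi, hy⟩ := hy
    have h1 := hz i hi
    rw [C, Metric.mem_closedBall] at h1
    rw [Metric.mem_ball] at hy
    rw [Metric.mem_closedBall]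
    linarith [dist_triangle y (z i) 0]
  have h1 : volume (⋃ i ∈ J, Metric.ball (z i) (1 / (2 * (u : ℝ)))) =
      J.card * ENNReal.ofReal (1 / u) := by
    rw [measure_biUnion_finset hdisj fun i _ => Metric.isOpen_ball.measurableSet,
      Finset.sum_congr rfl hvol]
    simp
  have h2 := measure_mono (μ := volume) hsub
  rw [h1, AddCircle.volume_closedBall] at h2
  have h3 : (J.card : ENNReal) * ENNReal.ofReal (1 / u) ≤
      ENNReal.ofReal (2 * (ε + 1 / (2 * u))) :=
    h2.trans (ENNReal.ofReal_le_ofReal (min_le_right _ _))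
  rw [← ENNReal.ofReal_natCast, ← ENNReal.ofReal_mul (by positivity),
    ENNReal.ofReal_le_ofReal_iff (by positivity)] at h3
  have h4 : (J.card : ℝ) = J.card * (1 / u) * u := by field_simp
  rw [h4]
  calc (J.card : ℝ) * (1 / u) * u ≤ 2 * (ε + 1 / (2 * u)) * u := by gcongr
    _ = 2 * ε * u + 1 := by field_simp

/-- the point `j / u` of the circle -/
noncomputable def τ (u j : ℕ) : UnitAddCircle := ((j / u : ℝ) : UnitAddCircle)

lemma smul_τ {u : ℕ} (hu : 0 < u) (j : ℕ) : u • τ u j = 0 := by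
  have hu' : (0 : ℝ) < u := by exact_mod_cast hu
  unfold τ
  have : u • ((j / u : ℝ) : UnitAddCircle) = ((u • (j / u : ℝ) : ℝ) : UnitAddCircle) := rfl
  rw [this, nsmul_eq_mul, show (u : ℝ) * (j / u) = j * 1 by field_simp]
  rw [← nsmul_eq_mul]
  exact (AddCircle.coe_nsmul (1 : ℝ)).trans (by rw [AddCircle.coe_period, smul_zero])

lemma τ_inj {u : ℕ} (hu : 0 < u) {i j : ℕ} (hi : i < u) (hj : j < u) (h : τ u i = τ u j) :
    i = j := by
  have hu' : (0 : ℝ) < u := by exact_mod_cast hu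
  have h7 : (i : ℝ) / u = j / u := by
    refine (AddCircle.coe_eq_coe_iff_of_mem_Ico (p := (1 : ℝ)) (a := 0)
      (x := (i : ℝ) / u) (y := (j : ℝ) / u) ?_ ?_).1 h
    · constructor
      · positivity
      · rw [zero_add, div_lt_one hu']
        exact_mod_cast hi
    · constructor
      · positivity
      · rw [zero_add, div_lt_one hu']
        exact_mod_cast hj
  field_simp at h7
  exact_mod_cast h7

lemma sep_τ {u v : ℕ} (hu : 0 < u) (huv : Nat.Coprime u v) (y : UnitAddCircle) {i j : ℕ} (hi : i < u)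
    (hj : j < u) (hij : i ≠ j) :
    1 / (u : ℝ) ≤ ‖(y + v • τ u i) - (y + v • τ u j)‖ := by
  rw [add_sub_add_left_eq_sub, ← smul_sub]
  refine norm_torsion hu ?_ ?_
  · rw [← mul_nsmul, mul_comm v u, mul_nsmul, smul_sub, smul_τ hu, smul_τ hu, sub_zero, smul_zero]
  · intro h3
    have h4 : u • (τ u i - τ u j) = 0 := by rw [smul_sub, smul_τ hu, smul_τ hu, sub_zero]
    have h5 : addOrderOf (τ u i - τ u j) ∣ 1 := by
      rw [← Nat.Coprime.gcd_eq_one huv]
      exact Nat.dvd_gcd (addOrderOf_dvd_of_nsmul_eq_zero h4)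
        (addOrderOf_dvd_of_nsmul_eq_zero h3)
    rw [Nat.dvd_one, AddMonoid.addOrderOf_eq_one_iff] at h5
    exact hij (τ_inj hu hi hj (sub_eq_zero.1 h5))

/-- the shifted intersections -/
def E (u v : ℕ) (ε : ℝ) (j : ℕ) : Set UnitAddCircle := {x : UnitAddCircle | u • x ∈ C ε ∧ v • x + v • τ u j ∈ C ε}

lemma measurableSet_E (u v : ℕ) (ε : ℝ) (j : ℕ) : MeasurableSet (E u v ε j) := by
  have h1 : MeasurableSet {x : UnitAddCircle | u • x ∈ C ε} := measurable_nsmul' u (measurableSet_C ε)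
  have h3 : Measurable (fun x : UnitAddCircle => v • x + v • τ u j) := (measurable_nsmul' v).add_const _
  have h2 : MeasurableSet {x : UnitAddCircle | v • x + v • τ u j ∈ C ε} := h3 (measurableSet_C ε)
  exact MeasurableSet.inter h1 h2

/-- the double preimage -/
def DD (u v : ℕ) (ε : ℝ) : Set UnitAddCircle := {x : UnitAddCircle | u • x ∈ C ε ∧ v • x ∈ C ε}

lemma vol_E {u : ℕ} (hu : 0 < u) (v : ℕ) (ε : ℝ) (j : ℕ) :
    volume (E u v ε j) = volume (DD u v ε) := by
  have : E u v ε j = (fun x => x + τ u j) ⁻¹' (DD u v ε) := by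
    ext x
    simp only [E, DD, Set.mem_ofPred_eq, Set.mem_preimage, smul_add, smul_τ hu, add_zero]
  rw [this]
  exact measure_preimage_add_right volume (τ u j) _

lemma pt_bound {u v : ℕ} (hu : 0 < u) (huv : Nat.Coprime u v) {ε : ℝ} (h0 : 0 ≤ ε) (x : UnitAddCircle) :
    (∑ j ∈ Finset.range u, (E u v ε j).indicator (fun _ => (1 : ENNReal)) x) ≤
      {x : UnitAddCircle | u • x ∈ C ε}.indicator (fun _ => ENNReal.ofReal (2 * ε * u + 1)) x := by
  by_cases hx : x ∈ {x : UnitAddCircle | u • x ∈ C ε}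
  · rw [Set.indicator_of_mem hx]
    classical
    set J : Finset ℕ := (Finset.range u).filter fun j => x ∈ E u v ε j with hJ
    have h2 : (∑ j ∈ Finset.range u, (E u v ε j).indicator (fun _ => (1 : ENNReal)) x) =
        J.card := by
      rw [hJ, Finset.card_filter]
      push_cast
      refine Finset.sum_congr rfl fun j _ => ?_
      by_cases h : x ∈ E u v ε j
      · rw [Set.indicator_of_mem h, if_pos h]
      · rw [Set.indicator_of_notMem h, if_neg h]
    rw [h2, ← ENNReal.ofReal_natCast]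
    refine ENNReal.ofReal_le_ofReal ?_
    refine card_sep hu h0 J (fun j => v • x + v • τ u j) ?_ ?_
    · intro j hj
      exact (Finset.mem_filter.1 hj).2.2
    · intro i hi j hj hij
      have hi' : i < u := Finset.mem_range.1 (Finset.mem_filter.1 hi).1
      have hj' : j < u := Finset.mem_range.1 (Finset.mem_filter.1 hj).1
      exact sep_τ hu huv _ hi' hj' hij
  · rw [Set.indicator_of_notMem hx]
    refine le_of_eq (Finset.sum_eq_zero fun j _ => ?_)
    exact Set.indicator_of_notMem (fun h => hx h.1) _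

/-- The key estimate for coprime multipliers. -/
lemma key {u v : ℕ} (hu : 0 < u) (huv : Nat.Coprime u v) {ε : ℝ} (h0 : 0 ≤ ε)
    (h1 : 2 * ε ≤ 1) :
    volume.real (DD u v ε) ≤ 2 * ε * (2 * ε + 1 / u) := by
  have hu' : (0 : ℝ) < u := by exact_mod_cast hu
  have hAm : MeasurableSet {x : UnitAddCircle | u • x ∈ C ε} := measurable_nsmul' u (measurableSet_C ε)
  have hint := lintegral_mono (μ := volume) (pt_bound hu huv h0)
  rw [lintegral_finsetSum _ fun j _ => measurable_const.indicator (measurableSet_E u v ε j),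
    lintegral_indicator_const hAm] at hint
  have h2 : ∀ j ∈ Finset.range u, (∫⁻ x : UnitAddCircle, (E u v ε j).indicator (fun _ => (1 : ENNReal)) x) =
      volume (DD u v ε) := by
    intro j _
    rw [lintegral_indicator_const (measurableSet_E u v ε j), one_mul, vol_E hu]
  rw [Finset.sum_congr rfl h2, Finset.sum_const, Finset.card_range, nsmul_eq_mul] at hint
  have hAvol : volume {x : UnitAddCircle | u • x ∈ C ε} = ENNReal.ofReal (2 * ε) := by
    have : volume {x : UnitAddCircle | u • x ∈ C ε} = volume (C ε) :=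
      (mp u hu).measure_preimage (measurableSet_C ε).nullMeasurableSet
    rw [this, C, AddCircle.volume_closedBall, min_eq_right h1]
  rw [hAvol, ← ENNReal.ofReal_mul (by positivity)] at hint
  have h3 : ((u : ENNReal) * volume (DD u v ε)).toReal ≤ (2 * ε * u + 1) * (2 * ε) :=
    ENNReal.toReal_le_of_le_ofReal (by positivity) hint
  rw [ENNReal.toReal_mul, ENNReal.toReal_natCast] at h3
  have h4 : volume.real (DD u v ε) = (u * (volume (DD u v ε)).toReal) / u := by
    unfold Measure.real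
    field_simp
  rw [h4, div_le_iff₀ hu']
  calc _ ≤ (2 * ε * u + 1) * (2 * ε) := h3
    _ = 2 * ε * (2 * ε + 1 / u) * u := by field_simp

/-- the preimage of the arc under multiplication by `2 ^ v.1 * 3 ^ v.2` -/
def A (ε : ℝ) (v : ℕ × ℕ) : Set UnitAddCircle := {x : UnitAddCircle | mm v • x ∈ C ε}

lemma measurableSet_A (ε : ℝ) (v : ℕ × ℕ) : MeasurableSet (A ε v) :=
  measurable_nsmul' _ (measurableSet_C ε)

lemma volume_A (ε : ℝ) (v : ℕ × ℕ) : volume (A ε v) = volume (C ε) :=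
  (mp (mm v) (mm_pos v)).measure_preimage (measurableSet_C ε).nullMeasurableSet

lemma vol_A {ε : ℝ} (h0 : 0 ≤ ε) (h1 : 2 * ε ≤ 1) (v : ℕ × ℕ) : volume.real (A ε v) = 2 * ε := by
  rw [Measure.real, volume_A]
  exact vol_C h0 h1

/-- the weight of a pair -/
noncomputable def q (v w : ℕ × ℕ) : ℝ :=
  (5 / 7 : ℝ) ^ ((v.1 - w.1) + (w.1 - v.1)) * (3 / 5 : ℝ) ^ ((v.2 - w.2) + (w.2 - v.2))

lemma DD_comm (u v : ℕ) (ε : ℝ) : DD u v ε = DD v u ε := by
  ext x
  exact and_comm

lemma coprime_parts (v w : ℕ × ℕ) :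
    Nat.Coprime (2 ^ (v.1 - w.1) * 3 ^ (v.2 - w.2)) (2 ^ (w.1 - v.1) * 3 ^ (w.2 - v.2)) := by
  have h23 : ∀ a b : ℕ, Nat.Coprime (2 ^ a) (3 ^ b) := fun a b =>
    Nat.Coprime.pow a b (by norm_num)
  have h32 : ∀ a b : ℕ, Nat.Coprime (3 ^ a) (2 ^ b) := fun a b =>
    Nat.Coprime.pow a b (by norm_num)
  refine Nat.Coprime.mul_left (Nat.Coprime.mul_right ?_ (h23 _ _))
    (Nat.Coprime.mul_right (h32 _ _) ?_)
  · rcases le_total v.1 w.1 with h | h
    · rw [Nat.sub_eq_zero_of_le h]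
      simp
    · rw [Nat.sub_eq_zero_of_le h]
      simp
  · rcases le_total v.2 w.2 with h | h
    · rw [Nat.sub_eq_zero_of_le h]
      simp
    · rw [Nat.sub_eq_zero_of_le h]
      simp

lemma inter_A {ε : ℝ} (h0 : 0 ≤ ε) (h1 : 2 * ε ≤ 1) (v w : ℕ × ℕ) :
    volume.real (A ε v ∩ A ε w) ≤ 2 * ε * (2 * ε + q v w) := by
  set u : ℕ := 2 ^ (v.1 - w.1) * 3 ^ (v.2 - w.2) with hu
  set u' : ℕ := 2 ^ (w.1 - v.1) * 3 ^ (w.2 - v.2) with hu'
  set g : ℕ := 2 ^ (min v.1 w.1) * 3 ^ (min v.2 w.2) with hg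
  have hup : 0 < u := by positivity
  have hup' : 0 < u' := by positivity
  have hgp : 0 < g := by positivity
  have hv : mm v = u * g := by
    simp only [mm, hu, hg]
    rw [show 2 ^ (v.1 - w.1) * 3 ^ (v.2 - w.2) * (2 ^ (min v.1 w.1) * 3 ^ (min v.2 w.2)) =
      2 ^ (v.1 - w.1) * 2 ^ (min v.1 w.1) * (3 ^ (v.2 - w.2) * 3 ^ (min v.2 w.2)) by ring]
    rw [← pow_add, ← pow_add]
    congr 2 <;> omega
  have hw : mm w = u' * g := by
    simp only [mm, hu', hg]
    rw [show 2 ^ (w.1 - v.1) * 3 ^ (w.2 - v.2) * (2 ^ (min v.1 w.1) * 3 ^ (min v.2 w.2)) =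
      2 ^ (w.1 - v.1) * 2 ^ (min v.1 w.1) * (3 ^ (w.2 - v.2) * 3 ^ (min v.2 w.2)) by ring]
    rw [← pow_add, ← pow_add]
    congr 2 <;> omega
  have hcop : Nat.Coprime u u' := coprime_parts v w
  have hset : A ε v ∩ A ε w = (fun x : UnitAddCircle => g • x) ⁻¹' DD u u' ε := by
    ext x
    simp only [A, DD, hv, hw, Set.mem_inter_iff, Set.mem_ofPred_eq, Set.mem_preimage,
      mul_nsmul']
  have hDDm : MeasurableSet (DD u u' ε) := by
    have h1 : MeasurableSet {x : UnitAddCircle | u • x ∈ C ε} := measurable_nsmul' u (measurableSet_C ε)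
    have h2 : MeasurableSet {x : UnitAddCircle | u' • x ∈ C ε} := measurable_nsmul' u' (measurableSet_C ε)
    exact MeasurableSet.inter h1 h2
  have hvol : volume.real (A ε v ∩ A ε w) = volume.real (DD u u' ε) := by
    rw [hset, Measure.real, Measure.real, (mp g hgp).measure_preimage hDDm.nullMeasurableSet]
  rw [hvol]
  have hk1 := key hup hcop h0 h1
  have hk2 := key hup' hcop.symm h0 h1
  rw [← DD_comm] at hk2
  have hmin : 1 / (u : ℝ) ≤ q v w ∨ 1 / (u' : ℝ) ≤ q v w := by
    by_contra hcon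
    push Not at hcon
    obtain ⟨h2, h3⟩ := hcon
    have hq0 : 0 ≤ q v w := by unfold q; positivity
    have h4 : q v w * q v w < 1 / (u : ℝ) * (1 / u') :=
      mul_lt_mul'' h2 h3 hq0 hq0
    have h5 : (1 / (u : ℝ)) * (1 / u') =
        (1 / 2 : ℝ) ^ ((v.1 - w.1) + (w.1 - v.1)) * (1 / 3 : ℝ) ^ ((v.2 - w.2) + (w.2 - v.2)) := by
      rw [hu, hu']
      push_cast
      rw [one_div_pow, one_div_pow, pow_add, pow_add]
      field_simp
    have h6 : q v w * q v w =
        (25 / 49 : ℝ) ^ ((v.1 - w.1) + (w.1 - v.1)) *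
          (9 / 25 : ℝ) ^ ((v.2 - w.2) + (w.2 - v.2)) := by
      unfold q
      rw [show (25 / 49 : ℝ) = 5 / 7 * (5 / 7) by norm_num,
        show (9 / 25 : ℝ) = 3 / 5 * (3 / 5) by norm_num, mul_pow, mul_pow]
      ring
    rw [h5, h6] at h4
    have h7 : (1 / 2 : ℝ) ^ ((v.1 - w.1) + (w.1 - v.1)) ≤
        (25 / 49 : ℝ) ^ ((v.1 - w.1) + (w.1 - v.1)) :=
      pow_le_pow_left₀ (by norm_num) (by norm_num) _
    have h8 : (1 / 3 : ℝ) ^ ((v.2 - w.2) + (w.2 - v.2)) ≤
        (9 / 25 : ℝ) ^ ((v.2 - w.2) + (w.2 - v.2)) :=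
      pow_le_pow_left₀ (by norm_num) (by norm_num) _
    have h9 := mul_le_mul h7 h8 (by positivity) (by positivity)
    linarith
  rcases hmin with h | h
  · refine hk1.trans ?_
    gcongr
  · refine hk2.trans ?_
    gcongr

lemma geo_aux {ρ : ℝ} (h0 : 0 ≤ ρ) (h1 : ρ < 1) (T : Finset ℕ) (f : ℕ → ℕ)
    (hf : Set.InjOn f T) : ∑ n ∈ T, ρ ^ f n ≤ 1 / (1 - ρ) := by
  rw [← Finset.sum_image (f := fun k => ρ ^ k) hf, one_div, ← tsum_geometric_of_lt_one h0 h1]
  exact (summable_geometric_of_lt_one h0 h1).sum_le_tsum _ fun i _ => pow_nonneg h0 i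

lemma geo {ρ : ℝ} (h0 : 0 ≤ ρ) (h1 : ρ < 1) (T : Finset ℕ) (a : ℕ) :
    ∑ n ∈ T, ρ ^ ((a - n) + (n - a)) ≤ (1 + ρ) / (1 - ρ) := by
  rw [← Finset.sum_filter_add_sum_filter_not T (fun n => n ≤ a)]
  have e1 : ∑ n ∈ T.filter (fun n => n ≤ a), ρ ^ ((a - n) + (n - a)) ≤ 1 / (1 - ρ) := by
    refine geo_aux h0 h1 _ (fun n => (a - n) + (n - a)) ?_
    intro n hn m hm hnm
    have hn' := (Finset.mem_filter.1 hn).2
    have hm' := (Finset.mem_filter.1 hm).2
    simp only at hnm
    omega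
  have e2 : ∑ n ∈ T.filter (fun n => ¬ n ≤ a), ρ ^ ((a - n) + (n - a)) ≤ ρ * (1 / (1 - ρ)) := by
    have : ∑ n ∈ T.filter (fun n => ¬ n ≤ a), ρ ^ ((a - n) + (n - a)) =
        ρ * ∑ n ∈ T.filter (fun n => ¬ n ≤ a), ρ ^ (n - a - 1) := by
      rw [Finset.mul_sum]
      refine Finset.sum_congr rfl fun n hn => ?_
      have hn' := (Finset.mem_filter.1 hn).2
      rw [← pow_succ']
      congr 1
      omega
    rw [this]
    refine mul_le_mul_of_nonneg_left ?_ h0
    refine geo_aux h0 h1 _ (fun n => n - a - 1) ?_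
    intro n hn m hm hnm
    have hn' := (Finset.mem_filter.1 hn).2
    have hm' := (Finset.mem_filter.1 hm).2
    simp only at hnm
    omega
  have h3 : 0 < 1 - ρ := by linarith
  calc _ ≤ 1 / (1 - ρ) + ρ * (1 / (1 - ρ)) := add_le_add e1 e2
    _ = (1 + ρ) / (1 - ρ) := by field_simp

lemma sum_q (v : ℕ × ℕ) (W : Finset (ℕ × ℕ)) : ∑ w ∈ W, q v w ≤ 24 := by
  classical
  have hsub : W ⊆ (W.image Prod.fst) ×ˢ (W.image Prod.snd) := by
    intro w hw
    rw [Finset.mem_product]
    exact ⟨Finset.mem_image_of_mem _ hw, Finset.mem_image_of_mem _ hw⟩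
  have h1 : ∑ w ∈ W, q v w ≤ ∑ w ∈ (W.image Prod.fst) ×ˢ (W.image Prod.snd), q v w := by
    refine Finset.sum_le_sum_of_subset_of_nonneg hsub fun w _ _ => ?_
    unfold q
    positivity
  refine h1.trans ?_
  have h2 : ∑ w ∈ (W.image Prod.fst) ×ˢ (W.image Prod.snd), q v w =
      (∑ a ∈ W.image Prod.fst, (5 / 7 : ℝ) ^ ((v.1 - a) + (a - v.1))) *
        ∑ b ∈ W.image Prod.snd, (3 / 5 : ℝ) ^ ((v.2 - b) + (b - v.2)) := by
    rw [Finset.sum_mul_sum, Finset.sum_product]
    rfl
  rw [h2]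
  have h3 := geo (ρ := 5 / 7) (by norm_num) (by norm_num) (W.image Prod.fst) v.1
  have h4 := geo (ρ := 3 / 5) (by norm_num) (by norm_num) (W.image Prod.snd) v.2
  calc _ ≤ ((1 + 5 / 7) / (1 - 5 / 7) : ℝ) * ((1 + 3 / 5) / (1 - 3 / 5)) :=
        mul_le_mul h3 h4 (Finset.sum_nonneg fun _ _ => by positivity) (by norm_num)
    _ = 24 := by norm_num

lemma union_lower {ε : ℝ} (h0 : 0 ≤ ε) (h1 : 2 * ε ≤ 1) (W : Finset (ℕ × ℕ))
    (hW : 24 ≤ 2 * ε * W.card) : 1 / 2 ≤ volume.real (⋃ v ∈ W, A ε v) := by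
  set t : ℝ := 2 * ε * W.card with ht
  set U : Set UnitAddCircle := ⋃ v ∈ W, A ε v with hU
  have hUm : MeasurableSet U := Finset.measurableSet_biUnion _ fun v _ => measurableSet_A ε v
  set I : ℕ × ℕ → UnitAddCircle → ℝ := fun v => (A ε v).indicator fun _ => 1 with hI
  have hIint : ∀ v, Integrable (I v) volume := fun v =>
    (integrable_const (1 : ℝ)).indicator (measurableSet_A ε v)
  have hII : ∀ v w, Integrable (fun x => I v x * I w x) volume := by
    intro v w
    have : (fun x => I v x * I w x) = (A ε v ∩ A ε w).indicator fun _ => (1 : ℝ) := by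
      ext x
      simp only [hI]
      by_cases h : x ∈ A ε v <;> by_cases h' : x ∈ A ε w <;> simp [h, h']
    rw [this]
    exact (integrable_const (1 : ℝ)).indicator ((measurableSet_A ε v).inter (measurableSet_A ε w))
  have hIIval : ∀ v w, ∫ x, I v x * I w x = volume.real (A ε v ∩ A ε w) := by
    intro v w
    have : (fun x => I v x * I w x) = (A ε v ∩ A ε w).indicator fun _ => (1 : ℝ) := by
      ext x
      simp only [hI]
      by_cases h : x ∈ A ε v <;> by_cases h' : x ∈ A ε w <;> simp [h, h']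
    rw [this, integral_indicator ((measurableSet_A ε v).inter (measurableSet_A ε w))]
    simp
  set X : UnitAddCircle → ℝ := fun x => ∑ v ∈ W, I v x with hX
  have hXint : Integrable X volume := integrable_finsetSum _ fun v _ => hIint v
  have hXval : ∫ x, X x = t := by
    rw [integral_finsetSum _ fun v _ => hIint v]
    have : ∀ v ∈ W, ∫ x, I v x = 2 * ε := by
      intro v _
      rw [hI, integral_indicator (measurableSet_A ε v)]
      simp only [integral_const, MeasurableSet.univ, measureReal_restrict_apply, Set.univ_inter,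
        smul_eq_mul, mul_one]
      exact vol_A h0 h1 v
    rw [Finset.sum_congr rfl this]
    simp [ht, mul_comm]
  have hX2 : ∀ x, X x ^ 2 = ∑ v ∈ W, ∑ w ∈ W, I v x * I w x := by
    intro x
    rw [sq, hX, Finset.sum_mul_sum]
  have hX2int : Integrable (fun x => X x ^ 2) volume := by
    simp_rw [hX2]
    exact integrable_finsetSum _ fun v _ => integrable_finsetSum _ fun w _ => hII v w
  have hX2val : ∫ x, X x ^ 2 ≤ t ^ 2 + 24 * t := by
    simp_rw [hX2]
    rw [integral_finsetSum _ fun v _ => integrable_finsetSum _ fun w _ => hII v w]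
    have h2 : ∀ v ∈ W, ∫ x, ∑ w ∈ W, I v x * I w x ≤ 2 * ε * (t + 24) := by
      intro v _
      rw [integral_finsetSum _ fun w _ => hII v w]
      calc ∑ w ∈ W, ∫ x, I v x * I w x ≤ ∑ w ∈ W, 2 * ε * (2 * ε + q v w) :=
            Finset.sum_le_sum fun w _ => by rw [hIIval]; exact inter_A h0 h1 v w
        _ = 2 * ε * (t + ∑ w ∈ W, q v w) := by
            rw [← Finset.mul_sum, Finset.sum_add_distrib, Finset.sum_const, nsmul_eq_mul, ht]
            ring
        _ ≤ 2 * ε * (t + 24) := by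
            have := sum_q v W
            gcongr
    calc ∑ v ∈ W, ∫ x, ∑ w ∈ W, I v x * I w x ≤ ∑ v ∈ W, 2 * ε * (t + 24) :=
          Finset.sum_le_sum h2
      _ = t ^ 2 + 24 * t := by
          rw [Finset.sum_const, nsmul_eq_mul, ht]
          ring
  have hXU : ∀ x, X x * U.indicator (fun _ => (1 : ℝ)) x = X x := by
    intro x
    by_cases hx : x ∈ U
    · rw [Set.indicator_of_mem hx, mul_one]
    · rw [Set.indicator_of_notMem hx, mul_zero]
      refine (Finset.sum_eq_zero fun v hv => ?_).symm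
      refine Set.indicator_of_notMem (fun h => hx ?_) _
      exact Set.mem_biUnion hv h
  have hUint : Integrable (U.indicator fun _ => (1 : ℝ)) volume :=
    (integrable_const (1 : ℝ)).indicator hUm
  have hUval : ∫ x, U.indicator (fun _ => (1 : ℝ)) x = volume.real U := by
    rw [integral_indicator hUm]
    simp
  have hpos : 0 ≤ ∫ x, (X x - (t + 24) * U.indicator (fun _ => (1 : ℝ)) x) ^ 2 :=
    integral_nonneg fun x => sq_nonneg _
  have hexp : ∀ x, (X x - (t + 24) * U.indicator (fun _ => (1 : ℝ)) x) ^ 2 =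
      X x ^ 2 - 2 * (t + 24) * X x + (t + 24) ^ 2 * U.indicator (fun _ => (1 : ℝ)) x := by
    intro x
    have h2 : U.indicator (fun _ => (1 : ℝ)) x * U.indicator (fun _ => (1 : ℝ)) x =
        U.indicator (fun _ => (1 : ℝ)) x := by
      by_cases hx : x ∈ U
      · simp [hx]
      · simp [hx]
    have h3 := hXU x
    calc _ = X x ^ 2 - 2 * (t + 24) * (X x * U.indicator (fun _ => (1 : ℝ)) x) +
          (t + 24) ^ 2 * (U.indicator (fun _ => (1 : ℝ)) x *
            U.indicator (fun _ => (1 : ℝ)) x) := by ring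
      _ = _ := by rw [h2, h3]
  simp_rw [hexp] at hpos
  have e1 : Integrable (fun x => X x ^ 2 - 2 * (t + 24) * X x) volume :=
    hX2int.sub (hXint.const_mul (2 * (t + 24)))
  have e2 : Integrable (fun x => (t + 24) ^ 2 * U.indicator (fun _ => (1 : ℝ)) x) volume :=
    hUint.const_mul _
  rw [integral_add e1 e2, integral_sub hX2int (hXint.const_mul (2 * (t + 24))),
    integral_const_mul, integral_const_mul, hXval, hUval] at hpos
  have ht0 : 24 ≤ t := hW
  have h5 : t * (t + 24) ≤ (t + 24) ^ 2 * volume.real U := by nlinarith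
  have h6 : t ≤ (t + 24) * volume.real U := by
    have h7 : (t + 24) * t ≤ (t + 24) * ((t + 24) * volume.real U) := by nlinarith
    exact le_of_mul_le_mul_left h7 (by linarith)
  have hUnn : 0 ≤ volume.real U := measureReal_nonneg
  by_contra hcon
  push Not at hcon
  nlinarith

end Pool.Agent.R201.Kh
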